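import Mathlib
import Pool.Agent.H630R2.LA.Nerode

set_option autoImplicit false

/-!
A 1-limited automaton with `O(m)` states which guesses one of several `m × m` bit matrices and
verifies any number of queries about its entries.

Input alphabet: bits, `u` (unary digit, also the end of a row), `s` (start of a matrix, also the end
of a query) and `q` (start of the list of queries).
-/

namespace Pool.Agent.TH705.LB

open Relation Pool.Agent.H630R2.LA

/-- Input letters. -/
inductive Ltr : Type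
  | bit (b : Bool) : Ltr
  | u : Ltr
  | s : Ltr
  | q : Ltr
  deriving DecidableEq

/-- Work symbols: a letter, a visited letter, the mark. -/
inductive Wk : Type
  | raw (l : Ltr) : Wk
  | vis (l : Ltr) : Wk
  | mark : Wk

/-- Modes. -/
inductive Tag : Type
  | A | K | I | L (b : Bool) | R (b : Bool) | C | B | G

/-- The moves of the witness. -/
inductive Tr : Tag → ℕ → Sym Wk → Tag → ℕ → Wk → Bool → Prop
  | A_go (l : Ltr) : Tr .A 0 (.sym (.raw l)) .A 0 (.vis l) true
  | A_mark : Tr .A 0 (.sym (.raw .s)) .K 0 .mark true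
  | K_go (l : Ltr) (h : l ≠ .q) : Tr .K 0 (.sym (.raw l)) .K 0 (.vis l) true
  | K_q : Tr .K 0 (.sym (.raw .q)) .I 0 (.vis .q) true
  | I_u (i : ℕ) : Tr .I i (.sym (.raw .u)) .I (i + 1) (.vis .u) true
  | I_bit (i : ℕ) (b : Bool) : Tr .I i (.sym (.raw (.bit b))) (.L b) i (.vis (.bit b)) false
  | I_end : Tr .I 0 .rm .G 0 .mark true
  | L_go (b : Bool) (i : ℕ) (l : Ltr) : Tr (.L b) i (.sym (.vis l)) (.L b) i (.vis l) false
  | L_mark (b : Bool) (i : ℕ) : Tr (.L b) i (.sym .mark) (.R b) i .mark true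
  | R_go (b : Bool) (i : ℕ) (x : Bool) :
      Tr (.R b) i (.sym (.vis (.bit x))) (.R b) i (.vis (.bit x)) true
  | R_pick (b : Bool) : Tr (.R b) 0 (.sym (.vis (.bit b))) .C 0 (.vis (.bit b)) true
  | R_u (b : Bool) (i : ℕ) : Tr (.R b) (i + 1) (.sym (.vis .u)) (.R b) i (.vis .u) true
  | C_bit (k : ℕ) (x : Bool) : Tr .C k (.sym (.vis (.bit x))) .C (k + 1) (.vis (.bit x)) true
  | C_u (k : ℕ) : Tr .C k (.sym (.vis .u)) .B k (.vis .u) true
  | B_go (k : ℕ) (l : Ltr) : Tr .B k (.sym (.vis l)) .B k (.vis l) true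
  | B_u (k : ℕ) : Tr .B (k + 1) (.sym (.raw .u)) .B k (.vis .u) true
  | B_s : Tr .B 0 (.sym (.raw .s)) .I 0 (.vis .s) true

/-- Encoding of the letters. -/
def ltrCode : Ltr → Fin 5
  | .bit false => 0
  | .bit true => 1
  | .u => 2
  | .s => 3
  | .q => 4

theorem ltrCode_inj : Function.Injective ltrCode := by
  rintro ((_ | _) | _ | _ | _) ((_ | _) | _ | _ | _) h
  all_goals first
    | rfl
    | exact absurd h (by decide)

instance : Finite Ltr := Finite.of_injective _ ltrCode_inj

theorem card_Ltr : Nat.card Ltr ≤ 5 := by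
  have := Nat.card_le_card_of_injective _ ltrCode_inj
  simpa using this

/-- Encoding of the work symbols. -/
def wkCode : Wk → Option (Ltr × Bool)
  | .raw l => some (l, false)
  | .vis l => some (l, true)
  | .mark => none

theorem wkCode_inj : Function.Injective wkCode := by
  intro x y h
  cases x <;> cases y <;> simp_all [wkCode]

instance : Finite Wk := Finite.of_injective _ wkCode_inj

theorem card_Wk : Nat.card Wk ≤ 11 := by
  have h := Nat.card_le_card_of_injective _ wkCode_inj
  rw [Finite.card_option, Nat.card_prod] at h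
  have h2 := card_Ltr
  have h3 : Nat.card Bool = 2 := by simp
  rw [h3] at h
  omega

/-- Encoding of the modes. -/
def tagCode : Tag → Fin 10
  | .A => 0
  | .K => 1
  | .I => 2
  | .L false => 3
  | .L true => 4
  | .R false => 5
  | .R true => 6
  | .C => 7
  | .B => 8
  | .G => 9

theorem tagCode_inj : Function.Injective tagCode := by
  rintro (_ | _ | _ | (_ | _) | (_ | _) | _ | _ | _) (_ | _ | _ | (_ | _) | (_ | _) | _ | _ | _) h
  all_goals first
    | rfl
    | exact absurd h (by decide)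

instance : Finite Tag := Finite.of_injective _ tagCode_inj

theorem card_Tag : Nat.card Tag ≤ 10 := by
  have := Nat.card_le_card_of_injective _ tagCode_inj
  simpa using this

/-- The witness machine for `m × m` matrices. -/
def witM (m : ℕ) : LimAut Ltr where
  Q := Tag × Fin (m + 1)
  W := Wk
  finQ := inferInstance
  finW := inferInstance
  inp := Wk.raw
  inp_inj := by
    intro a b h
    cases h
    rfl
  δ := fun p σ => {x | Tr p.1 p.2.val σ x.1.1 x.1.2.val x.2.1 x.2.2}
  q0 := (.A, 0)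
  F := {(.G, 0)}

/-- Two moves with the same left-hand side: at most two possibilities, told apart by whether the
new mode is `A` or `R`. -/
theorem Tr_unique {g : Tag} {i : ℕ} {σ : Sym Wk} {g1 g2 : Tag} {i1 i2 : ℕ} {v1 v2 : Wk}
    {d1 d2 : Bool} (h1 : Tr g i σ g1 i1 v1 d1) (h2 : Tr g i σ g2 i2 v2 d2)
    (h3 : (g1 = .K ∨ g1 = .C) ↔ (g2 = .K ∨ g2 = .C)) : g1 = g2 ∧ i1 = i2 ∧ v1 = v2 ∧ d1 = d2 := by
  cases h1 <;> cases h2 <;> first
    | exact ⟨rfl, rfl, rfl, rfl⟩
    | (exfalso; simp at h3)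

theorem numTrans_witM (m : ℕ) : (witM m).numTrans ≤ 260 * (m + 1) := by
  classical
  have hS := finite_Sym Wk
  have hcard : Nat.card (((Tag × Fin (m + 1)) × Sym Wk) × Bool) ≤ 260 * (m + 1) := by
    rw [Nat.card_prod, Nat.card_prod, Nat.card_prod, card_Sym]
    have h1 := card_Tag
    have h2 := card_Wk
    have h3 : Nat.card Bool = 2 := by simp
    have h4 : Nat.card (Fin (m + 1)) = m + 1 := by simp
    rw [h3, h4]
    calc Nat.card Tag * (m + 1) * (Nat.card Wk + 2) * 2
        ≤ 10 * (m + 1) * (11 + 2) * 2 := by gcongr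
      _ = 260 * (m + 1) := by ring
  refine le_trans ?_ hcard
  unfold LimAut.numTrans
  have hinj : Set.InjOn (fun t : (witM m).Q × Sym (witM m).W × (witM m).Q × (witM m).W × Bool =>
      (((t.1, t.2.1), decide (t.2.2.1.1 = Tag.K ∨ t.2.2.1.1 = Tag.C)) :
        ((Tag × Fin (m + 1)) × Sym Wk) × Bool))
      {t | t.2.2 ∈ (witM m).δ t.1 t.2.1} := by
    rintro ⟨p, σ, q, v, d⟩ hx ⟨p', σ', q', v', d'⟩ hx' h
    simp only [Prod.mk.injEq, decide_eq_decide] at h
    obtain ⟨⟨rfl, rfl⟩, h3⟩ := h
    have h4 : Tr p.1 p.2.val σ q.1 q.2.val v d := hx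
    have h5 : Tr p.1 p.2.val σ q'.1 q'.2.val v' d' := hx'
    obtain ⟨h6, h7, h8, h9⟩ := Tr_unique h4 h5 h3
    have h10 : q = q' := Prod.ext h6 (Fin.ext h7)
    rw [h10, h8, h9]
  rw [← hinj.ncard_image, ← Set.ncard_univ]
  exact Set.ncard_le_ncard (Set.subset_univ _) (Set.toFinite _)

theorem size_witM (m : ℕ) : (witM m).size ≤ 1330 * (m + 1) := by
  have h1 := numTrans_witM m
  unfold LimAut.size
  have h2 : Nat.card (witM m).Q = Nat.card Tag * (m + 1) := by
    show Nat.card (Tag × Fin (m + 1)) = _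
    rw [Nat.card_prod]
    simp
  have h3 : Nat.card (witM m).W ≤ 11 := card_Wk
  have h4 : (witM m).F.ncard = 1 := Set.ncard_singleton _
  have h5 := card_Ltr
  have h6 := card_Tag
  rw [h2, h4]
  have h7 : Nat.card Tag * (m + 1) ≤ 10 * (m + 1) := Nat.mul_le_mul_right _ h6
  omega

end Pool.Agent.TH705.LB
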