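import Mathlib
import Pool.Agent.TH705.LB.Wit

set_option autoImplicit false

/-! The computations of the witness, described by one-way runs over the visited letters. -/

namespace Pool.Agent.TH705.LB

open Relation Pool.Agent.H630R2.LA

variable {m : ℕ} {strict : Prop}

/-- States of the witness. -/
abbrev St (m : ℕ) : Type := Tag × Fin (m + 1)

/-- A move to the right over a visited letter. -/
def T1 (p : St m) (l : Ltr) (r : St m) : Prop := Tr p.1 p.2.val (.sym (.vis l)) r.1 r.2.val (.vis l) true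

/-- One-way runs over visited letters. -/
def Rch : List Ltr → St m → St m → Prop
  | [], p, r => p = r
  | l :: v, p, r => ∃ t, T1 p l t ∧ Rch v t r

theorem Rch_append (v w : List Ltr) (p r : St m) :
    Rch (v ++ w) p r ↔ ∃ t, Rch v p t ∧ Rch w t r := by
  induction v generalizing p with
  | nil => simp [Rch]
  | cons l v ih =>
    simp only [List.cons_append, Rch]
    constructor
    · rintro ⟨t, h1, h2⟩
      obtain ⟨t', h3, h4⟩ := (ih t).1 h2
      exact ⟨t', ⟨t, h1, h3⟩, h4⟩
    · rintro ⟨t', ⟨t, h1, h3⟩, h4⟩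
      exact ⟨t, h1, (ih t).2 ⟨t', h3, h4⟩⟩

theorem Rch_single (l : Ltr) (p r : St m) : Rch [l] p r ↔ T1 p l r := by
  simp [Rch]

/-- The modes in which the machine only moves right. -/
def Fwd (g : Tag) : Prop := (∃ b, g = .R b) ∨ g = .C ∨ g = .B

theorem T1_fwd {p r : St m} {l : Ltr} (h : T1 p l r) : Fwd p.1 ∧ Fwd r.1 := by
  obtain ⟨g, i⟩ := p
  obtain ⟨g', i'⟩ := r
  unfold T1 at h
  dsimp only at h
  generalize i.val = a at h
  generalize i'.val = b at h
  cases h <;> simp [Fwd]

theorem Rch_fwd {v : List Ltr} {p r : St m} (h : Rch v p r) (hp : Fwd p.1) : Fwd r.1 := by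
  induction v generalizing p with
  | nil =>
    have h' : p = r := h
    rw [← h']
    exact hp
  | cons l v ih =>
    obtain ⟨t, h1, h2⟩ := h
    exact ih h2 (T1_fwd h1).2

theorem fz_iff (p r : St m) (σ : Sym Wk) (d : Bool) (hσ : ∀ l, σ ≠ .sym (.raw l)) :
    fz strict (witM m) p σ r d ↔ ∃ b, Tr p.1 p.2.val σ r.1 r.2.val b d := by
  constructor
  · rintro ⟨b, h1, _⟩
    exact ⟨b, h1⟩
  · rintro ⟨b, h⟩
    refine ⟨b, h, fun _ => ?_⟩
    generalize p.1 = g at h
    generalize p.2.val = i at h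
    generalize r.1 = g' at h
    generalize r.2.val = i' at h
    cases h <;> first
      | rfl
      | exact absurd rfl (hσ _)

theorem nr_vis (l : Ltr) : ∀ l', (Sym.sym (Wk.vis l) : Sym Wk) ≠ .sym (.raw l') := by
  intro l' h
  cases h

theorem nr_mark : ∀ l', (Sym.sym Wk.mark : Sym Wk) ≠ .sym (.raw l') := by
  intro l' h
  cases h

/-- no left move on a visited letter in a forward mode -/
theorem fz_left {p r : St m} {l : Ltr} (h : fz strict (witM m) p (.sym (.vis l)) r false) :
    (∃ b, p.1 = .L b) ∧ r = p := by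
  obtain ⟨b, h1, _⟩ := h
  have h2 : Tr p.1 p.2.val (.sym (.vis l)) r.1 r.2.val b false := h1
  obtain ⟨g, i⟩ := p
  obtain ⟨g', i'⟩ := r
  dsimp only at h2
  generalize hi : i.val = a at h2
  generalize hi' : i'.val = a' at h2
  cases h2
  have : i' = i := Fin.ext (hi'.trans hi.symm)
  exact ⟨⟨_, rfl⟩, by rw [this]⟩

theorem fz_right {p r : St m} {l : Ltr} :
    fz strict (witM m) p (.sym (.vis l)) r true ↔ T1 p l r := by
  refine (fz_iff _ _ _ _ (nr_vis l)).trans ?_
  constructor
  · rintro ⟨b, h⟩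
    unfold T1
    generalize p.1 = g at h ⊢
    generalize p.2.val = i at h ⊢
    generalize r.1 = g' at h ⊢
    generalize r.2.val = i' at h ⊢
    cases h <;> constructor
  · intro h
    exact ⟨_, h⟩

/-- `R` is the table of a left part which ends with the mark followed by the visited word `v`. -/
def Good (_strict : Prop) (R : Set (St m × St m)) (v : List Ltr) : Prop :=
  ∀ (b : Bool) (i : Fin (m + 1)) (r : St m), (((Tag.L b, i) : St m), r) ∈ R ↔ Rch v (.R b, i) r

theorem fwd_ext {R : Set (St m × St m)} {l : Ltr} {p r : St m} (hp : Fwd p.1) :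
    (p, r) ∈ ext strict (witM m) R (.sym (.vis l)) ↔ T1 p l r := by
  constructor
  · rintro ⟨s, h1, h2⟩
    have h1' : ReflTransGen (fun y z => ∃ r, fz strict (witM m) y (.sym (.vis l)) r false ∧
      (r, z) ∈ R) p s := h1
    rcases ReflTransGen.cases_head h1' with h3 | ⟨z, ⟨t, h4, _⟩, _⟩
    · subst h3
      exact fz_right.1 h2
    · exfalso
      obtain ⟨⟨b, hb⟩, _⟩ := fz_left h4
      rcases hp with ⟨c, hc⟩ | hc | hc <;> rw [hb] at hc <;> cases hc
  · intro h
    exact ⟨p, ReflTransGen.refl, fz_right.2 h⟩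

theorem good_ext {R : Set (St m × St m)} {v : List Ltr} (hR : Good strict R v) (l : Ltr) :
    Good strict (ext strict (witM m) R (.sym (.vis l))) (v ++ [l]) := by
  intro b i r
  rw [Rch_append]
  simp only [Rch_single]
  constructor
  · rintro ⟨s, h1, h2⟩
    have h1' : ReflTransGen (fun y z => ∃ r, fz strict (witM m) y (.sym (.vis l)) r false ∧
      (r, z) ∈ R) ((Tag.L b, i) : St m) s := h1
    have h2' := fz_right.1 h2
    rcases ReflTransGen.cases_head h1' with h3 | ⟨z, ⟨t, h4, h5⟩, h6⟩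
    · exfalso
      rw [← h3] at h2'
      rcases (T1_fwd h2').1 with ⟨c, hc⟩ | hc | hc <;> cases hc
    · obtain ⟨_, rfl⟩ := fz_left h4
      have h7 := (hR b i z).1 h5
      have hz : Fwd z.1 := Rch_fwd h7 (Or.inl ⟨b, rfl⟩)
      have hzs : z = s := by
        rcases ReflTransGen.cases_head h6 with h8 | ⟨z', ⟨t', h9, _⟩, _⟩
        · exact h8
        · exfalso
          obtain ⟨⟨b', hb'⟩, _⟩ := fz_left h9
          rcases hz with ⟨c, hc⟩ | hc | hc <;> rw [hb'] at hc <;> cases hc
      subst hzs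
      exact ⟨z, h7, h2'⟩
  · rintro ⟨s, h1, h2⟩
    have h3 := (hR b i s).2 h1
    exact ⟨s, ReflTransGen.single ⟨(Tag.L b, i),
      (fz_iff (Tag.L b, i) (Tag.L b, i) _ _ (nr_vis l)).2 ⟨_, Tr.L_go b i.val l⟩, h3⟩,
      fz_right.2 h2⟩

theorem good_mark (R : Set (St m × St m)) :
    Good strict (ext strict (witM m) R (.sym .mark)) [] := by
  intro b i r
  have hl : ∀ t, ¬ fz strict (witM m) ((Tag.L b, i) : St m) (.sym .mark) t false := by
    intro t h
    obtain ⟨c, h⟩ := (fz_iff (Tag.L b, i) t _ _ nr_mark).1 h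
    dsimp only at h
    generalize (t : St m).1 = g' at h
    generalize (t : St m).2.val = i' at h
    cases h
  constructor
  · rintro ⟨s, h1, h2⟩
    have h1' : ReflTransGen (fun y z => ∃ r, fz strict (witM m) y (.sym .mark) r false ∧
      (r, z) ∈ R) ((Tag.L b, i) : St m) s := h1
    rcases ReflTransGen.cases_head h1' with h3 | ⟨z, ⟨t, h4, h5⟩, h6⟩
    · subst h3
      obtain ⟨c, h⟩ := (fz_iff (Tag.L b, i) r _ _ nr_mark).1 h2
      obtain ⟨g', i'⟩ := r
      dsimp only at h
      generalize hi' : i'.val = a' at h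
      generalize hi : i.val = a at h
      cases h
      have : i = i' := Fin.ext (hi.trans hi'.symm)
      rw [this]
      rfl
    · exact absurd h4 (hl t)
  · intro h
    have h' : ((Tag.R b, i) : St m) = r := h
    subst h'
    exact ⟨(Tag.L b, i), ReflTransGen.refl,
      (fz_iff (Tag.L b, i) (Tag.R b, i) _ _ nr_mark).2 ⟨_, Tr.L_mark b i.val⟩⟩

/-- One step of the computation after the mark: `v` is the visited word after the mark, the head is
on the unvisited letter `l`. -/
def S1 (v : List Ltr) (p : St m) (l : Ltr) (r : St m) : Prop :=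
  Tr p.1 p.2.val (.sym (.raw l)) r.1 r.2.val (.vis l) true ∨
    ∃ b i, p = (.I, i) ∧ l = .bit b ∧ Rch (v ++ [l]) (.R b, i) r

/-- Computations after the mark. -/
def S2 : List Ltr → List Ltr → St m → St m → Prop
  | [], _, p, r => p = r
  | l :: w, v, p, r => ∃ t, S1 v p l t ∧ S2 w (v ++ [l]) t r

theorem S2_append (w w' v : List Ltr) (p r : St m) :
    S2 (w ++ w') v p r ↔ ∃ t, S2 w v p t ∧ S2 w' (v ++ w) t r := by
  induction w generalizing v p with
  | nil => simp [S2]
  | cons l w ih =>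
    simp only [List.cons_append, S2]
    constructor
    · rintro ⟨t, h1, h2⟩
      obtain ⟨t', h3, h4⟩ := (ih _ t).1 h2
      refine ⟨t', ⟨t, h1, h3⟩, ?_⟩
      simpa using h4
    · rintro ⟨t', ⟨t, h1, h3⟩, h4⟩
      refine ⟨t, h1, (ih _ t).2 ⟨t', h3, ?_⟩⟩
      simpa using h4

/-- not the first mode -/
def NA (p : St m) : Prop := p.1 ≠ .A

theorem S1_NA {v : List Ltr} {p r : St m} {l : Ltr} (h : S1 v p l r) (hp : NA p) : NA r := by
  rcases h with h | ⟨b, i, _, _, h⟩
  · unfold NA at *
    generalize p.1 = g at h hp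
    generalize p.2.val = i at h
    generalize r.1 = g' at h ⊢
    generalize r.2.val = i' at h
    cases h <;> simp_all
  · have := Rch_fwd h (Or.inl ⟨b, rfl⟩)
    unfold NA
    rcases this with ⟨c, hc⟩ | hc | hc <;> rw [hc] <;> simp

/-- Steps of the table automaton after the mark. -/
theorem nstep_post {R : Set (St m × St m)} {v : List Ltr} (hR : Good strict R v) {p : St m}
    (hp : NA p) (l : Ltr) (y : Set (St m × St m) × St m) :
    nstep strict (witM m) (.sym (.raw l)) (R, p) y ↔
      y.1 = ext strict (witM m) R (.sym (.vis l)) ∧ S1 v p l y.2 := by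
  constructor
  · rintro ⟨t, b, d, hδ, h1, h2, h3⟩
    have hδ' : Tr p.1 p.2.val (.sym (.raw l)) t.1 t.2.val b d := hδ
    cases d with
    | true =>
      have h4 : y.2 = t := h2 rfl
      have hb : b = .vis l := by
        unfold NA at hp
        generalize p.1 = g at hδ' hp
        generalize p.2.val = i at hδ'
        generalize t.1 = g' at hδ'
        generalize t.2.val = i' at hδ'
        cases hδ' <;> first
          | rfl
          | exact absurd rfl hp
      subst hb
      refine ⟨h1, Or.inl ?_⟩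
      rw [h4]
      exact hδ'
    | false =>
      obtain ⟨s, h4, h5⟩ := h3 rfl
      have key : ∃ c, l = .bit c ∧ p.1 = .I ∧ t = (.L c, p.2) ∧ b = .vis l := by
        obtain ⟨g, i⟩ := p
        obtain ⟨g', i'⟩ := t
        dsimp only at hδ' ⊢
        generalize hi : i.val = a at hδ'
        generalize hi' : i'.val = a' at hδ'
        cases hδ'
        have : i' = i := Fin.ext (hi'.trans hi.symm)
        exact ⟨_, rfl, rfl, by rw [this], rfl⟩
      obtain ⟨c, rfl, hpI, rfl, rfl⟩ := key
      have h6 : y.1 = ext strict (witM m) R (.sym (.vis (.bit c))) := h1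
      refine ⟨h6, Or.inr ⟨c, p.2, Prod.ext hpI rfl, rfl, ?_⟩⟩
      have h4' := (hR c p.2 s).1 h4
      refine (Rch_append _ _ _ _).2 ⟨s, h4', (Rch_single _ _ _).2 ?_⟩
      rw [h6] at h5
      exact (fwd_ext (Rch_fwd h4' (Or.inl ⟨c, rfl⟩))).1 h5
  · rintro ⟨h1, h2⟩
    rcases h2 with h2 | ⟨b, i, rfl, rfl, h2⟩
    · exact ⟨y.2, .vis l, true, h2, h1, fun _ => rfl, fun h => absurd h (by simp)⟩
    · rw [Rch_append] at h2
      obtain ⟨s, h3, h4⟩ := h2
      rw [Rch_single] at h4
      refine ⟨(.L b, i), .vis (.bit b), false, Tr.I_bit i.val b, h1, fun h => absurd h (by simp),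
        fun _ => ⟨s, (hR b i s).2 h3, ?_⟩⟩
      rw [h1]
      exact (fwd_ext (Rch_fwd h3 (Or.inl ⟨b, rfl⟩))).2 h4

/-- Runs of the table automaton after the mark. -/
theorem runs_post (w : List Ltr) {R : Set (St m × St m)} {v : List Ltr} (hR : Good strict R v)
    {p : St m} (hp : NA p) (r : St m) :
    (∃ R', runs strict (witM m) w (R, p) (R', r)) ↔ S2 w v p r := by
  induction w generalizing R v p with
  | nil =>
    constructor
    · rintro ⟨R', h⟩
      have h' : (R, p) = (R', r) := h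
      exact (Prod.mk.inj h').2
    · intro h
      exact ⟨R, by rw [show p = r from h]; rfl⟩
  | cons l w ih =>
    constructor
    · rintro ⟨R', z, h1, h2⟩
      obtain ⟨h3, h4⟩ := (nstep_post hR hp l z).1 h1
      refine ⟨z.2, h4, ?_⟩
      have h5 : Good strict z.1 (v ++ [l]) := by rw [h3]; exact good_ext hR l
      exact (ih h5 (S1_NA h4 hp)).1 ⟨R', h2⟩
    · rintro ⟨t, h1, h2⟩
      obtain ⟨R', h3⟩ := (ih (good_ext hR l) (S1_NA h1 hp)).2 h2
      exact ⟨R', (ext strict (witM m) R (.sym (.vis l)), t), (nstep_post hR hp l _).2 ⟨rfl, h1⟩, h3⟩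

/-- Steps in the first mode. -/
theorem nstep_A {R : Set (St m × St m)} (l : Ltr) (y : Set (St m × St m) × St m) :
    nstep strict (witM m) (.sym (.raw l)) (R, ((.A, 0) : St m)) y ↔
      (y.2 = (.A, 0) ∧ y.1 = ext strict (witM m) R (.sym (.vis l))) ∨
      (l = .s ∧ y.2 = (.K, 0) ∧ y.1 = ext strict (witM m) R (.sym .mark)) := by
  constructor
  · rintro ⟨t, b, d, hδ, h1, h2, h3⟩
    have hδ' : Tr .A 0 (.sym (.raw l)) t.1 t.2.val b d := hδ
    obtain ⟨g', i'⟩ := t
    dsimp only at hδ'
    generalize hi' : i'.val = a' at hδ'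
    cases hδ' with
    | A_go l =>
      left
      have : i' = 0 := Fin.ext hi'
      subst this
      exact ⟨h2 rfl, h1⟩
    | A_mark =>
      right
      have : i' = 0 := Fin.ext hi'
      subst this
      exact ⟨rfl, h2 rfl, h1⟩
  · rintro (⟨h1, h2⟩ | ⟨rfl, h1, h2⟩)
    · exact ⟨(.A, 0), .vis l, true, Tr.A_go l, h2, fun _ => h1, fun h => absurd h (by simp)⟩
    · exact ⟨(.K, 0), .mark, true, Tr.A_mark, h2, fun _ => h1, fun h => absurd h (by simp)⟩

theorem finX_iff (y : Set (St m × St m) × St m) : finX strict (witM m) y ↔ y.2 = (.I, 0) := by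
  constructor
  · rintro ⟨z, ⟨t, b, d, hδ, h1, h2, h3⟩, hz⟩
    have hδ' : Tr y.2.1 y.2.2.val .rm t.1 t.2.val b d := hδ
    obtain ⟨R, g, i⟩ := y
    obtain ⟨g', i'⟩ := t
    dsimp only at hδ' ⊢
    generalize hi : i.val = a at hδ'
    generalize hi' : i'.val = a' at hδ'
    cases hδ' with
    | I_end =>
      have : i = 0 := Fin.ext hi
      rw [this]
  · intro h
    obtain ⟨R, p⟩ := y
    dsimp only at h
    subst h
    exact ⟨(ext strict (witM m) R .rm, (.G, 0)), ⟨(.G, 0), .mark, true, Tr.I_end, rfl, fun _ => rfl,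
      fun h => absurd h (by simp)⟩, rfl⟩

/-- Runs from the first mode. -/
theorem runs_A (w : List Ltr) (R : Set (St m × St m)) :
    (∃ y, runs strict (witM m) w (R, ((.A, 0) : St m)) y ∧ finX strict (witM m) y) ↔
      ∃ a c, w = a ++ Ltr.s :: c ∧ S2 c [] ((.K, 0) : St m) (.I, 0) := by
  induction w generalizing R with
  | nil =>
    constructor
    · rintro ⟨y, h1, h2'⟩
      have h2 := (finX_iff y).1 h2'
      have h1' : (R, ((.A, 0) : St m)) = y := h1
      rw [← h1'] at h2
      cases h2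
    · rintro ⟨a, c, h, _⟩
      simp at h
  | cons l w ih =>
    constructor
    · rintro ⟨y, ⟨z, h1, h2⟩, h3⟩
      have h1' := (nstep_A (strict := strict) (R := R) l z).1 h1
      obtain ⟨R', p'⟩ := z
      dsimp only at h1'
      rcases h1' with ⟨rfl, rfl⟩ | ⟨rfl, rfl, rfl⟩
      · obtain ⟨a, c, rfl, h5⟩ := (ih _).1 ⟨y, h2, h3⟩
        exact ⟨l :: a, c, rfl, h5⟩
      · refine ⟨[], w, rfl, ?_⟩
        replace h3 := (finX_iff y).1 h3
        obtain ⟨R'', r⟩ := y
        dsimp only at h3
        subst h3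
        exact (runs_post w (good_mark R) (by simp [NA]) _).1 ⟨R'', h2⟩
    · rintro ⟨a, c, h, h5⟩
      rcases a with _ | ⟨l', a⟩
      · simp only [List.nil_append, List.cons.injEq] at h
        obtain ⟨rfl, rfl⟩ := h
        obtain ⟨R', h6⟩ := (runs_post (strict := strict) w (good_mark R) (by simp [NA]) _).2 h5
        exact ⟨(R', (.I, 0)), ⟨(ext strict (witM m) R (.sym .mark), (.K, 0)),
          (nstep_A _ _).2 (Or.inr ⟨rfl, rfl, rfl⟩), h6⟩, (finX_iff _).2 rfl⟩
      · simp only [List.cons_append, List.cons.injEq] at h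
        obtain ⟨rfl, rfl⟩ := h
        obtain ⟨y, h6, h7⟩ := (ih (ext strict (witM m) R (.sym (.vis l)))).2 ⟨a, c, rfl, h5⟩
        exact ⟨y, ⟨_, (nstep_A _ _).2 (Or.inl ⟨rfl, rfl⟩), h6⟩, h7⟩

theorem mem_witM (w : List Ltr) : w ∈ (witM m).language strict ↔
    ∃ a c, w = a ++ Ltr.s :: c ∧ S2 c [] ((.K, 0) : St m) (.I, 0) := by
  rw [mem_language_runs]
  exact runs_A w _

end Pool.Agent.TH705.LB
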