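import Mathlib
import Pool.Agent.TH705.LB.Sem

set_option autoImplicit false

/-! The witness on words consisting of matrices and queries. -/

namespace Pool.Agent.TH705.LB

open Relation Pool.Agent.H630R2.LA

variable {m : ℕ} {strict : Prop}

/-! ### Single steps -/

theorem T1_B (k : Fin (m + 1)) (l : Ltr) (r : St m) : T1 (.B, k) l r ↔ r = (.B, k) := by
  constructor
  · intro h
    obtain ⟨g', i'⟩ := r
    unfold T1 at h
    dsimp only at h
    generalize hi' : i'.val = a' at h
    generalize hi : k.val = a at h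
    cases h
    have : i' = k := Fin.ext (hi'.trans hi.symm)
    rw [this]
  · rintro rfl
    exact Tr.B_go k.val l

theorem T1_C_bit (k : Fin (m + 1)) (x : Bool) (r : St m) :
    T1 (.C, k) (.bit x) r ↔ r.1 = .C ∧ r.2.val = k.val + 1 := by
  constructor
  · intro h
    obtain ⟨g', i'⟩ := r
    unfold T1 at h
    dsimp only at h
    generalize hi' : i'.val = a' at h
    generalize hi : k.val = a at h
    cases h
    exact ⟨rfl, rfl⟩
  · rintro ⟨h1, h2⟩
    obtain ⟨g', i'⟩ := r
    dsimp only at h1 h2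
    subst h1
    unfold T1
    dsimp only
    rw [h2]
    exact Tr.C_bit k.val x

theorem T1_C_u (k : Fin (m + 1)) (r : St m) : T1 (.C, k) .u r ↔ r = (.B, k) := by
  constructor
  · intro h
    obtain ⟨g', i'⟩ := r
    unfold T1 at h
    dsimp only at h
    generalize hi' : i'.val = a' at h
    generalize hi : k.val = a at h
    cases h
    have : i' = k := Fin.ext (hi'.trans hi.symm)
    rw [this]
  · rintro rfl
    exact Tr.C_u k.val

theorem T1_R_u (b : Bool) (i : Fin (m + 1)) (r : St m) :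
    T1 (.R b, i) .u r ↔ r.1 = .R b ∧ r.2.val + 1 = i.val := by
  constructor
  · intro h
    obtain ⟨g', i'⟩ := r
    unfold T1 at h
    dsimp only at h
    generalize hi' : i'.val = a' at h
    generalize hi : i.val = a at h
    cases h
    exact ⟨rfl, rfl⟩
  · rintro ⟨h1, h2⟩
    obtain ⟨g', i'⟩ := r
    dsimp only at h1 h2
    subst h1
    unfold T1
    dsimp only
    rw [← h2]
    exact Tr.R_u b i'.val

theorem T1_R_bit (b : Bool) (i : Fin (m + 1)) (x : Bool) (r : St m) :
    T1 (.R b, i) (.bit x) r ↔ r = (.R b, i) ∨ (i = 0 ∧ x = b ∧ r = (.C, 0)) := by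
  constructor
  · intro h
    obtain ⟨g', i'⟩ := r
    unfold T1 at h
    dsimp only at h
    generalize hi' : i'.val = a' at h
    generalize hi : i.val = a at h
    cases h with
    | R_go b a x =>
      have : i' = i := Fin.ext (hi'.trans hi.symm)
      left
      rw [this]
    | R_pick b =>
      right
      have h1 : i' = 0 := Fin.ext hi'
      have h2 : i = 0 := Fin.ext hi
      exact ⟨h2, rfl, by rw [h1]⟩
  · rintro (rfl | ⟨rfl, rfl, rfl⟩)
    · exact Tr.R_go b i.val x
    · exact Tr.R_pick _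

/-! ### Scanning a row -/

theorem Rch_B (w : List Ltr) (k : Fin (m + 1)) (r : St m) : Rch w (.B, k) r ↔ r = (.B, k) := by
  induction w with
  | nil => exact ⟨fun h => (show _ = r from h).symm, fun h => h.symm⟩
  | cons l w ih =>
    constructor
    · rintro ⟨t, h1, h2⟩
      rw [T1_B] at h1
      subst h1
      exact ih.1 h2
    · intro h
      exact ⟨(.B, k), (T1_B k l _).2 rfl, ih.2 h⟩

theorem Rch_C (ρ : List Bool) (k : Fin (m + 1)) (r : St m) :
    Rch (ρ.map Ltr.bit) (.C, k) r ↔ r.1 = .C ∧ r.2.val = k.val + ρ.length := by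
  induction ρ generalizing k with
  | nil =>
    constructor
    · intro h
      have h' : ((.C, k) : St m) = r := h
      rw [← h']
      exact ⟨rfl, rfl⟩
    · rintro ⟨h1, h2⟩
      exact Prod.ext h1.symm (Fin.ext h2.symm)
  | cons x ρ ih =>
    constructor
    · rintro ⟨t, h1, h2⟩
      rw [T1_C_bit] at h1
      obtain ⟨h3, h4⟩ := h1
      obtain ⟨g, k'⟩ := t
      dsimp only at h3 h4
      subst h3
      obtain ⟨h5, h6⟩ := (ih k').1 h2
      refine ⟨h5, ?_⟩
      rw [h6, h4, List.length_cons]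
      ring
    · rintro ⟨h1, h2⟩
      have hk : k.val + 1 < m + 1 := by
        have := r.2.isLt
        rw [List.length_cons] at h2
        omega
      refine ⟨(.C, ⟨k.val + 1, hk⟩), (T1_C_bit k x _).2 ⟨rfl, rfl⟩, (ih _).2 ⟨h1, ?_⟩⟩
      rw [h2, List.length_cons]
      ring

/-- the bit in front of the last `k` bits of `ρ` is `b` -/
def Pick : List Bool → Bool → ℕ → Prop
  | [], _, _ => False
  | x :: ρ, b, k => (x = b ∧ k = ρ.length) ∨ Pick ρ b k

theorem pick_iff (ρ : List Bool) (b : Bool) (k : ℕ) : Pick ρ b k ↔ ρ.reverse[k]? = some b := by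
  induction ρ with
  | nil => simp [Pick]
  | cons x ρ ih =>
    simp only [Pick, List.reverse_cons]
    rw [ih]
    rcases lt_trichotomy k ρ.length with h | h | h
    · rw [List.getElem?_append_left (by simpa using h)]
      constructor
      · rintro (⟨_, h1⟩ | h1)
        · omega
        · exact h1
      · intro h1
        exact Or.inr h1
    · subst h
      rw [List.getElem?_append_right (by simp)]
      simp
    · rw [List.getElem?_append_right (by simp; omega), List.getElem?_eq_none (by simp; omega)]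
      constructor
      · rintro (⟨_, h1⟩ | h1)
        · omega
        · cases h1
      · intro h1
        rw [List.getElem?_eq_none (by simp; omega)] at h1
        cases h1

/-- The word of a row. -/
def rowW (ρ : List Bool) : List Ltr := ρ.map Ltr.bit ++ [Ltr.u]

theorem Rch_row_pos (ρ : List Bool) (b : Bool) (i : Fin (m + 1)) (hi : 0 < i.val) (r : St m) :
    Rch (rowW ρ) (.R b, i) r ↔ r.1 = .R b ∧ r.2.val + 1 = i.val := by
  unfold rowW
  induction ρ with
  | nil =>
    rw [List.map_nil, List.nil_append, Rch_single, T1_R_u]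
  | cons x ρ ih =>
    rw [List.map_cons, List.cons_append]
    constructor
    · rintro ⟨t, h1, h2⟩
      rw [T1_R_bit] at h1
      rcases h1 with rfl | ⟨rfl, _⟩
      · exact ih.1 h2
      · simp at hi
    · intro h
      exact ⟨(.R b, i), (T1_R_bit _ _ _ _).2 (Or.inl rfl), ih.2 h⟩

theorem Rch_row_zero (ρ : List Bool) (b : Bool) (r : St m) :
    Rch (rowW ρ) (.R b, 0) r ↔ r.1 = .B ∧ Pick ρ b r.2.val := by
  unfold rowW
  induction ρ with
  | nil =>
    rw [List.map_nil, List.nil_append, Rch_single, T1_R_u]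
    constructor
    · rintro ⟨_, h⟩
      simp at h
    · rintro ⟨_, h⟩
      exact absurd h (by simp [Pick])
  | cons x ρ ih =>
    rw [List.map_cons, List.cons_append]
    constructor
    · rintro ⟨t, h1, h2⟩
      rw [T1_R_bit] at h1
      rcases h1 with rfl | ⟨_, rfl, rfl⟩
      · obtain ⟨h3, h4⟩ := ih.1 h2
        exact ⟨h3, Or.inr h4⟩
      · rw [Rch_append] at h2
        obtain ⟨t, h3, h4⟩ := h2
        rw [Rch_C] at h3
        rw [Rch_single] at h4
        obtain ⟨g, k⟩ := t
        obtain ⟨h5, h6⟩ := h3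
        dsimp only at h5 h6
        subst h5
        rw [T1_C_u] at h4
        subst h4
        refine ⟨rfl, Or.inl ⟨rfl, ?_⟩⟩
        dsimp only
        rw [h6]
        simp
    · rintro ⟨h1, h2 | h2⟩
      · obtain ⟨rfl, h3⟩ := h2
        refine ⟨(.C, 0), (T1_R_bit _ _ _ _).2 (Or.inr ⟨rfl, rfl, rfl⟩), ?_⟩
        rw [Rch_append]
        refine ⟨(.C, r.2), (Rch_C _ _ _).2 ⟨rfl, ?_⟩, ?_⟩
        · dsimp only
          rw [h3]
          simp
        · rw [Rch_single, T1_C_u]
          exact Prod.ext h1 rfl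
      · exact ⟨(.R b, 0), (T1_R_bit _ _ _ _).2 (Or.inl rfl), ih.2 ⟨h1, h2⟩⟩

theorem Rch_rows (L : List (List Bool)) (b : Bool) (i : Fin (m + 1)) (hi : i.val < L.length)
    (z : List Ltr) (r : St m) :
    Rch (L.flatMap rowW ++ z) (.R b, i) r ↔ r.1 = .B ∧ Pick (L[i.val]'hi) b r.2.val := by
  induction L generalizing i with
  | nil => simp at hi
  | cons ρ L ih =>
    rw [List.flatMap_cons, List.append_assoc]
    rcases Nat.eq_zero_or_pos i.val with h0 | h0
    · have hi0 : i = 0 := Fin.ext h0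
      subst hi0
      have hget : (ρ :: L)[(0 : Fin (m + 1)).val]'hi = ρ := rfl
      rw [hget, Rch_append]
      constructor
      · rintro ⟨t, h1, h2⟩
        rw [Rch_row_zero] at h1
        obtain ⟨g, k⟩ := t
        obtain ⟨h3, h4⟩ := h1
        dsimp only at h3
        subst h3
        rw [Rch_B] at h2
        subst h2
        exact ⟨rfl, h4⟩
      · rintro ⟨h1, h2⟩
        refine ⟨r, (Rch_row_zero _ _ _).2 ⟨h1, h2⟩, ?_⟩
        obtain ⟨g, k⟩ := r
        dsimp only at h1
        subst h1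
        exact (Rch_B _ _ _).2 rfl
    · have hlt : i.val - 1 < L.length := by
        rw [List.length_cons] at hi
        omega
      have hlt' : i.val - 1 < m + 1 := by omega
      have hget : (ρ :: L)[i.val]'hi = L[i.val - 1]'hlt := by
        rw [List.getElem_cons, dif_neg (by omega)]
      have key := ih ⟨i.val - 1, hlt'⟩ hlt
      rw [hget, ← key, Rch_append]
      constructor
      · rintro ⟨t, h1, h2⟩
        rw [Rch_row_pos _ _ _ h0] at h1
        obtain ⟨h3, h4⟩ := h1
        have : t = (.R b, ⟨i.val - 1, hlt'⟩) := Prod.ext h3 (Fin.ext (by simp only; omega))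
        rw [← this]
        exact h2
      · intro h
        exact ⟨_, (Rch_row_pos _ _ _ h0 _).2 ⟨rfl, by simp only; omega⟩, h⟩

/-! ### Matrices -/

/-- The rows of a matrix, as written in the word. -/
def rowsL (X : Fin m → Fin m → Bool) : List (List Bool) :=
  List.ofFn fun i => (List.ofFn (X i)).reverse

/-- The word of a matrix without the initial letter `s`. -/
def rowsW (X : Fin m → Fin m → Bool) : List Ltr := (rowsL X).flatMap rowW

theorem Rch_matrix (X : Fin m → Fin m → Bool) (b : Bool) (i : Fin m) (z : List Ltr) (r : St m) :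
    Rch (rowsW X ++ z) (.R b, i.castSucc) r ↔ ∃ k : Fin m, X i k = b ∧ r = (.B, k.castSucc) := by
  unfold rowsW
  rw [Rch_rows (rowsL X) b i.castSucc (by simp [rowsL])]
  have hget : (rowsL X)[i.castSucc.val]'(by simp [rowsL]) = (List.ofFn (X i)).reverse := by
    simp [rowsL]
  rw [hget, pick_iff, List.reverse_reverse, List.getElem?_ofFn]
  constructor
  · rintro ⟨h1, h2⟩
    split_ifs at h2 with h3
    · refine ⟨⟨r.2.val, h3⟩, Option.some.inj h2, Prod.ext h1 (Fin.ext rfl)⟩
  · rintro ⟨k, h1, rfl⟩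
    refine ⟨rfl, ?_⟩
    dsimp only
    rw [dif_pos (by simp)]
    exact congrArg some h1

/-! ### Steps after the mark -/

theorem S1_K (v : List Ltr) (l : Ltr) (r : St m) :
    S1 v (.K, 0) l r ↔ (l ≠ .q ∧ r = (.K, 0)) ∨ (l = .q ∧ r = (.I, 0)) := by
  constructor
  · rintro (h | ⟨b, i, h, _⟩)
    · obtain ⟨g', i'⟩ := r
      dsimp only at h
      generalize hi' : i'.val = a' at h
      have h0 : ((0 : Fin (m + 1)).val) = 0 := rfl
      rw [h0] at h
      cases h with
      | K_go l hl =>
        left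
        have h1 : i' = 0 := Fin.ext hi'
        exact ⟨hl, by rw [h1]⟩
      | K_q =>
        right
        have h1 : i' = 0 := Fin.ext hi'
        exact ⟨rfl, by rw [h1]⟩
    · cases h
  · rintro (⟨h1, rfl⟩ | ⟨rfl, rfl⟩)
    · exact Or.inl (Tr.K_go l h1)
    · exact Or.inl Tr.K_q

theorem S1_I_u (v : List Ltr) (i : Fin (m + 1)) (r : St m) :
    S1 v (.I, i) .u r ↔ r.1 = .I ∧ r.2.val = i.val + 1 := by
  constructor
  · rintro (h | ⟨b, i', _, h, _⟩)
    · obtain ⟨g', i'⟩ := r
      dsimp only at h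
      generalize hi' : i'.val = a' at h
      generalize hi : i.val = a at h
      cases h
      exact ⟨rfl, rfl⟩
    · cases h
  · rintro ⟨h1, h2⟩
    obtain ⟨g', i'⟩ := r
    dsimp only at h1 h2
    subst h1
    left
    dsimp only
    rw [h2]
    exact Tr.I_u i.val

theorem S1_I_bit (v : List Ltr) (i : Fin (m + 1)) (b : Bool) (r : St m) :
    S1 v (.I, i) (.bit b) r ↔ Rch (v ++ [.bit b]) (.R b, i) r := by
  constructor
  · rintro (h | ⟨b', i', h1, h2, h3⟩)
    · obtain ⟨g', i'⟩ := r
      dsimp only at h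
      generalize hi' : i'.val = a' at h
      generalize hi : i.val = a at h
      cases h
    · cases h1
      cases h2
      exact h3
  · intro h
    exact Or.inr ⟨b, i, rfl, rfl, h⟩

theorem S1_B_u (v : List Ltr) (k : Fin (m + 1)) (r : St m) :
    S1 v (.B, k) .u r ↔ r.1 = .B ∧ r.2.val + 1 = k.val := by
  constructor
  · rintro (h | ⟨b, i', h, _⟩)
    · obtain ⟨g', i'⟩ := r
      dsimp only at h
      generalize hi' : i'.val = a' at h
      generalize hi : k.val = a at h
      cases h
      exact ⟨rfl, rfl⟩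
    · cases h
  · rintro ⟨h1, h2⟩
    obtain ⟨g', i'⟩ := r
    dsimp only at h1 h2
    subst h1
    left
    dsimp only
    rw [← h2]
    exact Tr.B_u i'.val

theorem S1_B_s (v : List Ltr) (k : Fin (m + 1)) (r : St m) :
    S1 v (.B, k) .s r ↔ k = 0 ∧ r = (.I, 0) := by
  constructor
  · rintro (h | ⟨b, i', h, _⟩)
    · obtain ⟨g', i'⟩ := r
      dsimp only at h
      generalize hi' : i'.val = a' at h
      generalize hi : k.val = a at h
      cases h
      have h1 : i' = 0 := Fin.ext hi'
      have h2 : k = 0 := Fin.ext hi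
      exact ⟨h2, by rw [h1]⟩
    · cases h
  · rintro ⟨rfl, rfl⟩
    exact Or.inl Tr.B_s

/-! ### Words after the mark -/

theorem S2_K_free (w v : List Ltr) (hw : Ltr.q ∉ w) (r : St m) :
    S2 w v (.K, 0) r ↔ r = (.K, 0) := by
  induction w generalizing v with
  | nil => exact ⟨fun h => (show _ = r from h).symm, fun h => h.symm⟩
  | cons l w ih =>
    have hl : l ≠ .q := fun h => hw (by rw [h]; exact List.mem_cons_self)
    have hw' : Ltr.q ∉ w := fun h => hw (List.mem_cons_of_mem _ h)
    constructor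
    · rintro ⟨t, h1, h2⟩
      rw [S1_K] at h1
      rcases h1 with ⟨_, rfl⟩ | ⟨h1, _⟩
      · exact (ih _ hw').1 h2
      · exact absurd h1 hl
    · intro h
      exact ⟨(.K, 0), (S1_K _ _ _).2 (Or.inl ⟨hl, rfl⟩), (ih _ hw').2 h⟩

theorem S2_K_q (w z v : List Ltr) (hw : Ltr.q ∉ w) (r : St m) :
    S2 (w ++ Ltr.q :: z) v (.K, 0) r ↔ S2 z (v ++ w ++ [Ltr.q]) (.I, 0) r := by
  rw [S2_append]
  constructor
  · rintro ⟨t, h1, h2⟩
    rw [S2_K_free _ _ hw] at h1
    subst h1
    obtain ⟨t, h3, h4⟩ := h2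
    rw [S1_K] at h3
    rcases h3 with ⟨h3, _⟩ | ⟨_, rfl⟩
    · exact absurd rfl h3
    · exact h4
  · intro h
    exact ⟨(.K, 0), (S2_K_free _ _ hw _).2 rfl, (.I, 0), (S1_K _ _ _).2 (Or.inr ⟨rfl, rfl⟩), h⟩

theorem S2_I_us (n : ℕ) (v : List Ltr) (i : Fin (m + 1)) (r : St m) :
    S2 (List.replicate n Ltr.u) v (.I, i) r ↔ r.1 = .I ∧ r.2.val = i.val + n := by
  induction n generalizing v i with
  | zero =>
    constructor
    · intro h
      have h' : ((.I, i) : St m) = r := h
      rw [← h']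
      exact ⟨rfl, rfl⟩
    · rintro ⟨h1, h2⟩
      exact Prod.ext h1.symm (Fin.ext h2.symm)
  | succ n ih =>
    rw [List.replicate_succ]
    constructor
    · rintro ⟨t, h1, h2⟩
      rw [S1_I_u] at h1
      obtain ⟨g, k'⟩ := t
      obtain ⟨h3, h4⟩ := h1
      dsimp only at h3 h4
      subst h3
      obtain ⟨h5, h6⟩ := (ih _ k').1 h2
      exact ⟨h5, by rw [h6, h4]; ring⟩
    · rintro ⟨h1, h2⟩
      have hk : i.val + 1 < m + 1 := by
        have := r.2.isLt
        omega
      exact ⟨(.I, ⟨i.val + 1, hk⟩), (S1_I_u _ _ _).2 ⟨rfl, rfl⟩,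
        (ih _ _).2 ⟨h1, by rw [h2]; ring⟩⟩

theorem S2_B_us (n : ℕ) (v : List Ltr) (k : Fin (m + 1)) (r : St m) :
    S2 (List.replicate n Ltr.u) v (.B, k) r ↔ r.1 = .B ∧ r.2.val + n = k.val := by
  induction n generalizing v k with
  | zero =>
    constructor
    · intro h
      have h' : ((.B, k) : St m) = r := h
      rw [← h']
      exact ⟨rfl, rfl⟩
    · rintro ⟨h1, h2⟩
      exact Prod.ext h1.symm (Fin.ext h2.symm)
  | succ n ih =>
    rw [List.replicate_succ]
    constructor
    · rintro ⟨t, h1, h2⟩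
      rw [S1_B_u] at h1
      obtain ⟨g, k'⟩ := t
      obtain ⟨h3, h4⟩ := h1
      dsimp only at h3 h4
      subst h3
      obtain ⟨h5, h6⟩ := (ih _ k').1 h2
      exact ⟨h5, by omega⟩
    · rintro ⟨h1, h2⟩
      have hk : k.val - 1 < m + 1 := by omega
      exact ⟨(.B, ⟨k.val - 1, hk⟩), (S1_B_u _ _ _).2 ⟨rfl, by simp only; omega⟩,
        (ih _ _).2 ⟨h1, by simp only; omega⟩⟩

/-- The query whether the entry `(i, k)` is `b`. -/
def query (i k : Fin m) (b : Bool) : List Ltr :=
  List.replicate i.val Ltr.u ++ (Ltr.bit b :: (List.replicate k.val Ltr.u ++ [Ltr.s]))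

theorem S2_query (X : Fin m → Fin m → Bool) (z : List Ltr) (i k : Fin m) (b : Bool)
    (w : List Ltr) (r : St m) :
    S2 (query i k b ++ w) (rowsW X ++ z) (.I, 0) r ↔
      X i k = b ∧ S2 w (rowsW X ++ z ++ query i k b) (.I, 0) r := by
  rw [S2_append]
  have key : ∀ t : St m, S2 (query i k b) (rowsW X ++ z) (.I, 0) t ↔ X i k = b ∧ t = (.I, 0) := by
    intro t
    unfold query
    rw [S2_append]
    constructor
    · rintro ⟨t1, h1, t2, h2, h3⟩
      rw [S2_I_us] at h1
      obtain ⟨g, k1⟩ := t1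
      obtain ⟨h4, h5⟩ := h1
      dsimp only at h4 h5
      subst h4
      have hk1 : k1 = i.castSucc := Fin.ext (by rw [h5]; simp)
      subst hk1
      rw [S1_I_bit, List.append_assoc, List.append_assoc, Rch_matrix] at h2
      obtain ⟨k2, h6, rfl⟩ := h2
      rw [S2_append] at h3
      obtain ⟨t3, h7, t4, h8, h9⟩ := h3
      rw [S2_B_us] at h7
      obtain ⟨g3, k3⟩ := t3
      obtain ⟨h10, h11⟩ := h7
      dsimp only at h10 h11
      subst h10
      rw [S1_B_s] at h8
      obtain ⟨rfl, rfl⟩ := h8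
      have hk2 : k2 = k := Fin.ext (by simp at h11; omega)
      subst hk2
      exact ⟨h6, (show _ = t from h9).symm⟩
    · rintro ⟨h1, rfl⟩
      refine ⟨(.I, i.castSucc), (S2_I_us _ _ _ _).2 ⟨rfl, by simp⟩, (.B, k.castSucc), ?_, ?_⟩
      · rw [S1_I_bit, List.append_assoc, List.append_assoc, Rch_matrix]
        exact ⟨k, h1, rfl⟩
      · rw [S2_append]
        exact ⟨(.B, 0), (S2_B_us _ _ _ _).2 ⟨rfl, by simp⟩, (.I, 0),
          (S1_B_s _ _ _).2 ⟨rfl, rfl⟩, rfl⟩
  constructor
  · rintro ⟨t, h1, h2⟩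
    rw [key] at h1
    obtain ⟨h3, rfl⟩ := h1
    exact ⟨h3, h2⟩
  · rintro ⟨h1, h2⟩
    exact ⟨(.I, 0), (key _).2 ⟨h1, rfl⟩, h2⟩

/-- A list of queries. -/
def queriesW (l : List (Fin m × Fin m × Bool)) : List Ltr := l.flatMap fun x => query x.1 x.2.1 x.2.2

theorem S2_queries (X : Fin m → Fin m → Bool) (l : List (Fin m × Fin m × Bool)) (z : List Ltr) :
    S2 (queriesW l) (rowsW X ++ z) ((.I, 0) : St m) (.I, 0) ↔ ∀ x ∈ l, X x.1 x.2.1 = x.2.2 := by
  induction l generalizing z with
  | nil =>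
    simp only [List.not_mem_nil, false_implies, implies_true, iff_true]
    rfl
  | cons x l ih =>
    have h1 : queriesW (x :: l) = query x.1 x.2.1 x.2.2 ++ queriesW l := rfl
    rw [h1, S2_query, List.append_assoc, ih]
    simp only [List.mem_cons, forall_eq_or_imp]

/-! ### Complete words -/

/-- The word of a list of matrices. -/
def blocksW (Xs : List (Fin m → Fin m → Bool)) : List Ltr := Xs.flatMap fun X => Ltr.s :: rowsW X

theorem rowsW_free (X : Fin m → Fin m → Bool) : Ltr.s ∉ rowsW X ∧ Ltr.q ∉ rowsW X := by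
  constructor <;>
  · intro h
    unfold rowsW at h
    rw [List.mem_flatMap] at h
    obtain ⟨ρ, _, h⟩ := h
    simp [rowW] at h

theorem blocksW_free (Xs : List (Fin m → Fin m → Bool)) : Ltr.q ∉ blocksW Xs := by
  intro h
  unfold blocksW at h
  rw [List.mem_flatMap] at h
  obtain ⟨X, _, h⟩ := h
  rw [List.mem_cons] at h
  rcases h with h | h
  · cases h
  · exact (rowsW_free X).2 h

theorem queriesW_free (l : List (Fin m × Fin m × Bool)) : Ltr.q ∉ queriesW l := by
  intro h
  unfold queriesW at h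
  rw [List.mem_flatMap] at h
  obtain ⟨x, _, h⟩ := h
  simp [query, List.mem_replicate] at h

theorem split_free (w a c w' : List Ltr) (hw : Ltr.s ∉ w) (h : w ++ w' = a ++ Ltr.s :: c) :
    ∃ a', a = w ++ a' ∧ w' = a' ++ Ltr.s :: c := by
  induction w generalizing a with
  | nil => exact ⟨a, rfl, h⟩
  | cons x w ih =>
    rcases a with _ | ⟨y, a⟩
    · simp only [List.cons_append, List.nil_append, List.cons.injEq] at h
      exact absurd (by rw [← h.1]; exact List.mem_cons_self) hw
    · simp only [List.cons_append, List.cons.injEq] at h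
      obtain ⟨rfl, h⟩ := h
      obtain ⟨a', h1, h2⟩ := ih a (fun h' => hw (List.mem_cons_of_mem _ h')) h
      exact ⟨a', by rw [h1]; rfl, h2⟩

theorem accept_split (Xs : List (Fin m → Fin m → Bool)) (Z : List Ltr) (hZ : Ltr.q ∉ Z) :
    (∃ a c, blocksW Xs ++ Ltr.q :: Z = a ++ Ltr.s :: c ∧ S2 c [] ((.K, 0) : St m) (.I, 0)) ↔
      ∃ X Xs1 Xs2, Xs = Xs1 ++ X :: Xs2 ∧
        S2 (rowsW X ++ (blocksW Xs2 ++ Ltr.q :: Z)) [] ((.K, 0) : St m) (.I, 0) := by
  induction Xs with
  | nil =>
    constructor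
    · rintro ⟨a, c, h1, h2⟩
      exfalso
      rcases a with _ | ⟨y, a⟩
      · simp [blocksW] at h1
      · simp only [blocksW, List.flatMap_nil, List.nil_append, List.cons_append,
          List.cons.injEq] at h1
        have hc : Ltr.q ∉ c := by
          intro h
          apply hZ
          rw [h1.2]
          exact List.mem_append_right _ (List.mem_cons_of_mem _ h)
        rw [S2_K_free _ _ hc] at h2
        cases h2
    · rintro ⟨X, Xs1, Xs2, h, _⟩
      simp at h
  | cons X Xs ih =>
    have e1 : blocksW (X :: Xs) ++ Ltr.q :: Z =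
        Ltr.s :: (rowsW X ++ (blocksW Xs ++ Ltr.q :: Z)) := by
      simp [blocksW]
    rw [e1]
    constructor
    · rintro ⟨a, c, h1, h2⟩
      rcases a with _ | ⟨y, a⟩
      · simp only [List.nil_append, List.cons.injEq, true_and] at h1
        subst h1
        exact ⟨X, [], Xs, rfl, h2⟩
      · simp only [List.cons_append, List.cons.injEq] at h1
        obtain ⟨a', _, h3⟩ := split_free _ _ _ _ (rowsW_free X).1 h1.2
        obtain ⟨X', Xs1, Xs2, h4, h5⟩ := ih.1 ⟨a', c, h3, h2⟩
        exact ⟨X', X :: Xs1, Xs2, by rw [h4]; rfl, h5⟩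
    · rintro ⟨X', Xs1, Xs2, h1, h2⟩
      rcases Xs1 with _ | ⟨Y, Xs1⟩
      · simp only [List.nil_append, List.cons.injEq] at h1
        obtain ⟨rfl, rfl⟩ := h1
        exact ⟨[], _, rfl, h2⟩
      · simp only [List.cons_append, List.cons.injEq] at h1
        obtain ⟨rfl, h1⟩ := h1
        obtain ⟨a, c, h3, h4⟩ := ih.2 ⟨X', Xs1, Xs2, h1, h2⟩
        refine ⟨Ltr.s :: (rowsW X ++ a), c, ?_, h4⟩
        rw [h3]
        simp

/-- The witness accepts a list of matrices followed by a list of queries if and only if all the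
queries are correct for one of the matrices. -/
theorem mem_word (Xs : List (Fin m → Fin m → Bool)) (l : List (Fin m × Fin m × Bool)) :
    blocksW Xs ++ Ltr.q :: queriesW l ∈ (witM m).language strict ↔
      ∃ X ∈ Xs, ∀ x ∈ l, X x.1 x.2.1 = x.2.2 := by
  rw [mem_witM, accept_split _ _ (queriesW_free l)]
  have key : ∀ (X : Fin m → Fin m → Bool) (Xs2 : List (Fin m → Fin m → Bool)),
      S2 (rowsW X ++ (blocksW Xs2 ++ Ltr.q :: queriesW l)) [] ((.K, 0) : St m) (.I, 0) ↔
        ∀ x ∈ l, X x.1 x.2.1 = x.2.2 := by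
    intro X Xs2
    rw [← List.append_assoc, S2_K_q _ _ _ (by
      rw [List.mem_append]
      rintro (h | h)
      · exact (rowsW_free X).2 h
      · exact blocksW_free _ h), List.nil_append, List.append_assoc, S2_queries]
  constructor
  · rintro ⟨X, Xs1, Xs2, rfl, h⟩
    exact ⟨X, by simp, (key X Xs2).1 h⟩
  · rintro ⟨X, hX, h⟩
    obtain ⟨Xs1, Xs2, rfl⟩ := List.append_of_mem hX
    exact ⟨X, Xs1, Xs2, rfl, (key X Xs2).2 h⟩

end Pool.Agent.TH705.LB
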