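import Mathlib
import Pool.Agent.TH705.LB.Lang

set_option autoImplicit false

/-! Every deterministic machine equivalent to the witness is large. -/

namespace Pool.Agent.TH705.LB

open Pool.Agent.H630R2.LA

variable {m : ℕ}

/-- The matrices. -/
abbrev Mat (m : ℕ) : Type := Fin m → Fin m → Bool

theorem card_mat (m : ℕ) : Nat.card (Mat m) = 2 ^ (m ^ 2) := by
  have h1 : Nat.card (Mat m) = (2 ^ m) ^ m := by
    rw [Nat.card_fun, Nat.card_fun]
    simp
  rw [h1, ← pow_mul, sq]

open Classical in
/-- The matrices of a set in a list. -/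
noncomputable def listOf (G : Set (Mat m)) : List (Mat m) := G.toFinite.toFinset.toList

theorem mem_listOf (G : Set (Mat m)) (X : Mat m) : X ∈ listOf G ↔ X ∈ G := by
  unfold listOf
  rw [Finset.mem_toList, Set.Finite.mem_toFinset]

/-- All queries about the matrix `X`. -/
noncomputable def test (X : Mat m) : List (Fin m × Fin m × Bool) :=
  (Finset.univ : Finset (Fin m × Fin m)).toList.map fun p => (p.1, p.2, X p.1 p.2)

theorem test_iff (X Y : Mat m) : (∀ x ∈ test X, Y x.1 x.2.1 = x.2.2) ↔ Y = X := by
  unfold test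
  constructor
  · intro h
    funext i k
    exact h (i, k, X i k) (List.mem_map.2 ⟨(i, k), by simp, rfl⟩)
  · rintro rfl x hx
    obtain ⟨p, _, rfl⟩ := List.mem_map.1 hx
    rfl

theorem mem_set (strict : Prop) (G : Set (Mat m)) (X : Mat m) :
    blocksW (listOf G) ++ Ltr.q :: queriesW (test X) ∈ (witM m).language strict ↔ X ∈ G := by
  rw [mem_word]
  constructor
  · rintro ⟨Y, h1, h2⟩
    rw [test_iff] at h2
    subst h2
    exact (mem_listOf G Y).1 h1
  · intro h
    exact ⟨X, (mem_listOf G X).2 h, (test_iff X X).2 rfl⟩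

/-- Every deterministic machine equivalent to the witness has many states. -/
theorem lowerQ (m : ℕ) (strict : Prop) (M : LimAut Ltr) (hd : M.Deterministic)
    (hM : M.language strict = (witM m).language strict) :
    2 ^ (m ^ 2) ≤ Nat.card M.Q * Nat.card M.Q + Nat.card M.Q := by
  rw [← card_mat m]
  refine card_le_of_distinguished (strict := strict) hd (T := Mat m)
    (fun G => blocksW (listOf G)) ?_
  intro G G' hne
  obtain ⟨X, hX⟩ : ∃ X, ¬ (X ∈ G ↔ X ∈ G') := by
    by_contra h
    push Not at h
    exact hne (Set.ext h)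
  refine ⟨Ltr.q :: queriesW (test X), ?_⟩
  rw [hM, mem_set, mem_set]
  exact hX

/-- Every deterministic machine equivalent to the witness is large. -/
theorem lower (m : ℕ) (strict : Prop) (M : LimAut Ltr) (hd : M.Deterministic)
    (hM : M.language strict = (witM m).language strict) : 2 ^ (m ^ 2) ≤ M.size ^ 2 := by
  have h1 := lowerQ m strict M hd hM
  have h3 : Nat.card M.Q + 3 ≤ M.size := by
    unfold LimAut.size
    omega
  have h4 : (Nat.card M.Q + 3) ^ 2 ≤ M.size ^ 2 := Nat.pow_le_pow_left h3 2
  nlinarith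

end Pool.Agent.TH705.LB
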